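import Pool.Agent.H34.TAM.Stmts2

set_option autoImplicit false

noncomputable section

namespace Pool.AUT

open Pool.CGR Pool.CGS Pool.TAM

theorem joc_thm (hE : EXCStmt) : JOCStmt := by
  intro m A _ τ hτ x c hB hY o ε hε
  obtain ⟨H, hH⟩ := hY ε hε
  obtain ⟨H', h1, h2⟩ := hE m A τ hτ x c hB o H
  refine ⟨H', h1, fun i hi P hP => ?_⟩
  have hi' : c i = o := hi
  rw [← h2 i hi' P hP]
  exact hH i P

end Pool.AUT
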